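import Pool.Agent.Lib.MP_f3b2fd_co.KEP.B.D.St

/-! Branching trees over boxes, tables of refuted states, and their soundness. -/

set_option autoImplicit false

noncomputable section

namespace Pool.Agent.Lib.MP_f3b2fd_co.KD

open KEP KEP.En

/-- Evaluate `v` before continuing. -/
def fc {α : Type} (z : α) (v : ℕ) (k : ℕ → α) : α :=
  Nat.rec (motive := fun _ => α) z (fun m _ => k m) (Nat.add v 1)

def an (a b : Bool) : Bool := Bool.rec false b a

def bits (x s m : ℕ) : ℕ := Nat.land (Nat.shiftRight x s) m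

theorem fce {α : Type} (z : α) (v : ℕ) (k : ℕ → α) : fc z v k = k v := (Eq.refl (k v)).trans rfl

theorem an_iff (a b : Bool) : an a b = true ↔ a = true ∧ b = true := by
  cases a <;> cases b <;> simp [an]

/-- binary trees with data at the leaves -/
inductive Tb (α : Type) : Type
  | lf (v : α) : Tb α
  | nd (l r : Tb α) : Tb α

def Tb.get {α : Type} (t : Tb α) : ℕ → α :=
  Tb.rec (motive := fun _ => ℕ → α) (fun v _ => v) (fun _ _ a b i =>
    Nat.rec (motive := fun _ => α) (a (Nat.shiftRight i 1)) (fun _ _ => b (Nat.shiftRight i 1))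
      (Nat.land i 1)) t

def Tb.all {α : Type} (p : α → Bool) (t : Tb α) : Bool :=
  Tb.rec (motive := fun _ => Bool) p (fun _ _ a b => an a b) t

/-- a property of all entries -/
def Tb.All {α : Type} (P : α → Prop) (t : Tb α) : Prop := ∀ i, P (t.get i)

theorem Tb.All.nd {α : Type} {P : α → Prop} {l r : Tb α} (hl : l.All P) (hr : r.All P) :
    (Tb.nd l r).All P := by
  intro i
  show P (Nat.rec (motive := fun _ => α) (l.get (Nat.shiftRight i 1))
    (fun _ _ => r.get (Nat.shiftRight i 1)) (Nat.land i 1))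
  cases Nat.land i 1
  exacts [hl _, hr _]

theorem Tb.all_sound {α : Type} {P : α → Prop} {p : α → Bool} (h : ∀ v, p v = true → P v)
    (t : Tb α) (e : t.all p = true) : t.All P := by
  induction t with
  | lf v => exact fun _ => h v e
  | nd l r il ir => exact (il ((an_iff _ _).1 e).1).nd (ir ((an_iff _ _).1 e).2)

/-- branching trees -/
inductive Bt : Type
  | lf (c : ℕ) : Bt
  | nd (c : ℕ) (l r : Bt) : Bt

/-- the lane `a, b` is set to `v`. -/
def st (X a b v : ℕ) : ℕ := Nat.xor X (Nat.shiftLeft (Nat.xor (ln X a b) v)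
  (Nat.shiftLeft (Nat.add (Nat.shiftLeft a 4) b) 3))

/-- the upper indices of the whole range -/
def top : ℕ := 0x251f1f1f1f1f1f1f1f1f1f1f1f1f1f1f1f251f1f1f1f1f1f1f1f1f1f1f1f1f1f1f1f251f1f1f1f1f1f1f1f1f1f1f1f1f1f1f1f251f1f1f1f1f1f1f1f1f1f1f1f1f1f1f1f251f1f1f1f1f1f1f1f1f1f1f1f1f1f1f1f251f1f1f1f1f1f1f1f1f1f1f1f1f1f1f1f251f1f1f1f1f1f1f1f1f1f1f1f1f1f1f1f251f1f1f1f1f1f1f1f1f1f1f1f1f1f1f1f251f1f1f1f1f1f1f1f1f1f1f1f1f1f1f1f251f1f1f1f1f1f1f1f1f1f1f1f1f1f1f1f251f1f1f1f1f1f1f1f1f1f1f1f1f1f1f1f251f1f1f1f1f1f1f1f1f1f1f1f1f1f1f1f251f1f1f1f1f1f1f1f1f1f1f1f1f1f1f1f251f1f1f1f1f1f1f1f1f1f1f1f1f1f1f1f251f1f1f1f1f1f1f1f1f1f1f1f1f1f1f1f25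

/-- the triangles packed in `c`. -/
def dL (c : ℕ) : List Tr :=
  Nat.rec (motive := fun _ => List Tr) [] (fun i r =>
    fc [] (bits c (Nat.add 32 (Nat.mul 12 i)) 4095) fun z => fc [] (Nat.land z 15) fun a =>
      fc [] (bits z 4 15) fun b => fc [] (Nat.shiftRight z 8) fun d => (a, b, d) :: r)
    (bits c 13 31)

/-- a state with a tree: `hd` packs the number of points, the degree bound and the complex. -/
structure Job where
  hd : ℕ
  lo : ℕ
  hx : ℕ
  t : Bt

def RefH (hd LO HI : ℕ) : Prop :=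
  Ref (Nat.land hd 15) (bits hd 4 15) (bits hd 8 31) (dL hd) LO HI

def RefJ (j : Job) : Prop := RefH j.hd j.lo (Nat.xor j.hx top)

def run (lf : ℕ → ℕ → ℕ → Bool) (X : Tb Job) (hd : ℕ) (t : Bt) : ℕ → ℕ → Bool :=
  Bt.rec (motive := fun _ => ℕ → ℕ → Bool)
    (fun c LO HI => fc false (Nat.shiftRight c 1) fun k =>
      Nat.rec (motive := fun _ => Bool) (lf LO HI k)
        (fun _ _ => an (Nat.beq (X.get k).hd hd) (an (Nat.beq (X.get k).lo LO)
          (Nat.beq (Nat.xor (X.get k).hx top) HI))) (Nat.land c 1))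
    (fun c _ _ l r LO HI => fc false (Nat.land c 15) fun a => fc false (bits c 4 15) fun b =>
      fc false (bits c 8 255) fun i =>
        an (fc false (st HI a b i) fun H => fc false (st H b a i) fun H => l LO H)
          (fc false (st LO a b i) fun H => fc false (st H b a i) fun H => r H HI)) t

def chk (lf : ℕ → ℕ → List Tr → ℕ → ℕ → ℕ → Bool) (X : Tb Job) (j : Job) : Bool :=
  fc false j.hd fun hd => fc false (Nat.land hd 15) fun N => fc false (bits hd 8 31) fun n =>
    an (Nat.ble 13 N) (fc false (Nat.xor j.hx top) fun HI => run (lf N n (dL hd)) X hd j.t j.lo HI)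

theorem ln_eq (X a b : ℕ) : ln X a b = X >>> (8 * (16 * a + b)) &&& (2 ^ 8 - 1) := by
  show X >>> ((a <<< 4 + b) <<< 3) &&& 255 = _
  rw [Nat.shiftLeft_eq, Nat.shiftLeft_eq]
  congr 2
  ring

theorem ln_st (X : ℕ) {a b v a' b' : ℕ} (hb : b < 16) (hb' : b' < 16) (hv : v < 2 ^ 8) :
    ln (st X a b v) a' b' = if a' = a ∧ b' = b then v else ln X a' b' := by
  have e : st X a b v = X ^^^ (ln X a b ^^^ v) <<< (8 * (16 * a + b)) := by
    show X ^^^ (ln X a b ^^^ v) <<< ((a <<< 4 + b) <<< 3) = _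
    rw [Nat.shiftLeft_eq a, Nat.shiftLeft_eq (_ + b)]
    congr 2
    ring
  have hl : ln X a b < 2 ^ 8 := by
    rw [ln_eq, Nat.and_two_pow_sub_one_eq_mod]; exact Nat.mod_lt _ (by norm_num)
  have hx := Nat.xor_lt_two_pow hl hv
  rw [e]
  apply Nat.eq_of_testBit_eq
  intro i
  rw [ln_eq, Nat.testBit_and, Nat.testBit_shiftRight, Nat.testBit_xor, Nat.testBit_shiftLeft,
    Nat.testBit_two_pow_sub_one]
  split_ifs with h
  · obtain ⟨rfl, rfl⟩ := h
    rw [Nat.add_sub_cancel_left, Nat.testBit_xor, ln_eq, Nat.testBit_and, Nat.testBit_shiftRight,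
      Nat.testBit_two_pow_sub_one]
    by_cases hi : i < 8
    · simp [hi]
    · simp [hi, Nat.testBit_lt_two_pow (hv.trans_le (Nat.pow_le_pow_right (by norm_num)
        (not_lt.1 hi)))]
  · rw [ln_eq X a', Nat.testBit_and, Nat.testBit_shiftRight, Nat.testBit_two_pow_sub_one]
    by_cases hi : i < 8
    · by_cases h2 : 8 * (16 * a' + b') + i ≥ 8 * (16 * a + b)
      · rw [Nat.testBit_lt_two_pow (hx.trans_le (Nat.pow_le_pow_right (by norm_num) (by omega)))]
        simp
      · simp [h2]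
    · simp [hi]

theorem ln_st2 (X : ℕ) {a b v a' b' : ℕ} (ha : a < 16) (hb : b < 16) (hb' : b' < 16)
    (hv : v < 2 ^ 8) : ln (st (st X a b v) b a v) a' b' =
      if (a' = b ∧ b' = a) ∨ (a' = a ∧ b' = b) then v else ln X a' b' := by
  rw [ln_st _ ha hb' hv, ln_st _ hb hb' hv]
  by_cases h1 : a' = b ∧ b' = a <;> by_cases h2 : a' = a ∧ b' = b <;> simp [h1, h2]

theorem Ref.split {N cap n LO HI a b i : ℕ} {L : List Tr} (ha : a < 16) (hb : b < 16)
    (hi : i < 2 ^ 8) (l : Ref N cap n L LO (st (st HI a b i) b a i))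
    (r : Ref N cap n L (st (st LO a b i) b a i) HI) : Ref N cap n L LO HI := by
  intro hn o V _ _ t ι bad e B
  have ne : ∀ {u v : ℕ}, (∃ z, (ι u, ι v, z) ∈ t.T) → u ≠ v := by
    rintro u v ⟨z, hz⟩ rfl
    exact (t.ne _ _ _ hz).1 rfl
  by_cases q : a = b
  · subst q
    rcases le_total (t.h (ι a)) (gh i) with k | k
    · refine l hn o V t ι bad e ⟨fun u hu v hv m => ?_, fun u hu => ?_⟩
      · rw [ln_st2 _ ha ha (by omega) hi, if_neg (by have := ne m; omega)]
        exact B.x u hu v hv m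
      · rw [ln_st2 _ ha ha (by omega) hi]
        split_ifs with w
        · obtain rfl : u = a := by omega
          exact ⟨(B.h u hu).1, k⟩
        · exact B.h u hu
    · refine r hn o V t ι bad e ⟨fun u hu v hv m => ?_, fun u hu => ?_⟩
      · rw [ln_st2 _ ha ha (by omega) hi, if_neg (by have := ne m; omega)]
        exact B.x u hu v hv m
      · rw [ln_st2 _ ha ha (by omega) hi]
        split_ifs with w
        · obtain rfl : u = a := by omega
          exact ⟨k, (B.h u hu).2⟩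
        · exact B.h u hu
  · rcases le_total (t.x (ι a) (ι b)) (gx i) with k | k
    · refine l hn o V t ι bad e ⟨fun u hu v hv m => ?_, fun u hu => ?_⟩
      · rw [ln_st2 _ ha hb (by omega) hi]
        split_ifs with w
        · refine ⟨(B.x u hu v hv m).1, ?_⟩
          rcases w with ⟨rfl, rfl⟩ | ⟨rfl, rfl⟩
          · rwa [t.x_symm]
          · exact k
        · exact B.x u hu v hv m
      · rw [ln_st2 _ ha hb (by omega) hi, if_neg (by omega)]
        exact B.h u hu
    · refine r hn o V t ι bad e ⟨fun u hu v hv m => ?_, fun u hu => ?_⟩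
      · rw [ln_st2 _ ha hb (by omega) hi]
        split_ifs with w
        · refine ⟨?_, (B.x u hu v hv m).2⟩
          rcases w with ⟨rfl, rfl⟩ | ⟨rfl, rfl⟩
          · rwa [t.x_symm]
          · exact k
        · exact B.x u hu v hv m
      · rw [ln_st2 _ ha hb (by omega) hi, if_neg (by omega)]
        exact B.h u hu

theorem run_sound {lf : ℕ → ℕ → ℕ → Bool} {X : Tb Job} {hd : ℕ}
    (hl : ∀ LO HI c, lf LO HI c = true → RefH hd LO HI) (hX : X.All RefJ) (t : Bt) :
    ∀ LO HI, run lf X hd t LO HI = true → RefH hd LO HI := by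
  induction t with
  | lf c =>
    intro LO HI e
    replace e : Nat.rec (motive := fun _ => Bool) (lf LO HI (Nat.shiftRight c 1))
        (fun _ _ => an (Nat.beq (X.get (Nat.shiftRight c 1)).hd hd)
          (an (Nat.beq (X.get (Nat.shiftRight c 1)).lo LO)
          (Nat.beq (Nat.xor (X.get (Nat.shiftRight c 1)).hx top) HI))) (Nat.land c 1) = true := e
    revert e
    cases Nat.land c 1 with
    | zero => exact hl _ _ _
    | succ m =>
      intro e
      obtain ⟨e1, e2⟩ := (an_iff _ _).1 e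
      obtain ⟨e2, e3⟩ := (an_iff _ _).1 e2
      rw [← Nat.eq_of_beq_eq_true e1, ← Nat.eq_of_beq_eq_true e2, ← Nat.eq_of_beq_eq_true e3]
      exact hX _
  | nd c l r il ir =>
    intro LO HI e
    replace e : an (run lf X hd l LO (st (st HI (Nat.land c 15) (bits c 4 15) (bits c 8 255))
        (bits c 4 15) (Nat.land c 15) (bits c 8 255)))
      (run lf X hd r (st (st LO (Nat.land c 15) (bits c 4 15) (bits c 8 255))
        (bits c 4 15) (Nat.land c 15) (bits c 8 255)) HI) = true := e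
    obtain ⟨e1, e2⟩ := (an_iff _ _).1 e
    exact Ref.split (Nat.lt_succ_of_le Nat.and_le_right) (Nat.lt_succ_of_le Nat.and_le_right)
      (Nat.lt_succ_of_le Nat.and_le_right) (il _ _ e1) (ir _ _ e2)

theorem chk_sound {lf : ℕ → ℕ → List Tr → ℕ → ℕ → ℕ → Bool} (hl : LeafS lf) {X : Tb Job}
    (hX : X.All RefJ) (j : Job) (e : chk lf X j = true) : RefJ j := by
  rw [chk, fce, fce, fce, an_iff, fce] at e
  exact run_sound (fun LO HI c k => hl _ _ _ _ _ _ c (Nat.le_of_ble_eq_true e.1)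
    Nat.and_le_right k) hX _ _ _ e.2

/-- the table with one void state -/
def X0 : Tb Job := .lf ⟨4352, 0, 0, .lf 0⟩

theorem X0_all : X0.All RefJ := fun _ h => absurd (show bits 4352 8 31 ≤ 16 from h) (by decide)

theorem all_ref {lf : ℕ → ℕ → List Tr → ℕ → ℕ → ℕ → Bool} (hl : LeafS lf) {X : Tb Job}
    (hX : X.All RefJ) {T : Tb Job} (e : T.all (chk lf X) = true) : T.All RefJ :=
  Tb.all_sound (chk_sound hl hX) T e

theorem ln_top : ∀ a < 16, ∀ b < 16, ln top a b = if a = b then 37 else 31 := by decide +kernel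

theorem hs_sq : hs ^ 2 = 425 / 256 := by
  rw [hs, div_pow, Real.sq_sqrt (by norm_num)]; norm_num

theorem hs_pos : 0 ≤ hs := by unfold hs; positivity

theorem hs_le : hs ≤ 1 + 37 / 128 := by nlinarith [hs_sq, hs_pos]

theorem one_le_hs : 1 ≤ hs := by nlinarith [hs_sq, hs_pos]

variable {V : Type} [Fintype V] [DecidableEq V]

theorem x_le (t : Tri hs V) {a b : V} (h : a ≠ b) : t.x a b ≤ 23 / 32 := by
  have s := t.sep a b h
  have a1 := t.h_lo a
  have a2 := (t.h_hi a).trans hs_le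
  have b1 := t.h_lo b
  have b2 := (t.h_hi b).trans hs_le
  by_contra k
  have p : 0 < t.h a * t.h b := by positivity
  nlinarith [mul_nonneg (sub_nonneg.2 a1) (sub_nonneg.2 a2),
    mul_nonneg (sub_nonneg.2 b1) (sub_nonneg.2 b2),
    mul_nonneg (sub_nonneg.2 a2) (sub_nonneg.2 b2), mul_pos p (sub_pos.2 (not_le.1 k))]

theorem le_x (t : Tri hs V) {a b c : V} (h : (a, b, c) ∈ t.T) : -(1 / 4) ≤ t.x a b := by
  have r := t.rad a b c h
  have g := t.gram_pos a b c h
  have p := sub_pos.2 (t.x_lt h)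
  have q := sub_pos.2 (t.x_lt (t.rot _ _ _ h))
  have s := sub_pos.2 (t.x_lt (t.rot _ _ _ (t.rot _ _ _ h)))
  rw [hs_sq] at r
  have e1 : cof (t.x a b) (t.x b c) (t.x c a) = gram (t.x a b) (t.x b c) (t.x c a) +
      2 * ((1 - t.x a b) * (1 - t.x b c) * (1 - t.x c a)) := by unfold cof gram; ring
  have e2 : cof (t.x a b) (t.x b c) (t.x c a) * (1 + t.x a b) =
      2 * gram (t.x a b) (t.x b c) (t.x c a) +
        (1 - t.x a b) * (1 + t.x a b - t.x b c - t.x c a) ^ 2 := by unfold cof gram; ring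
  have c0 : 0 < cof (t.x a b) (t.x b c) (t.x c a) := by rw [e1]; positivity
  by_contra k
  nlinarith [mul_nonneg p.le (sq_nonneg (1 + t.x a b - t.x b c - t.x c a)),
    mul_pos c0 (sub_pos.2 (not_le.1 k))]

theorem box_top (t : Tri hs V) (ι : ℕ → V) {n : ℕ} (hn : n ≤ 16) : Box t ι n 0 top := by
  have z : ∀ a b, ln 0 a b = 0 := fun a b => by rw [ln_eq]; simp
  refine ⟨fun a ha b hb ⟨c, m⟩ => ?_, fun a ha => ?_⟩
  · have ne := (t.ne _ _ _ m).1
    rw [z, ln_top a (by omega) b (by omega), if_neg (by rintro rfl; exact ne rfl)]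
    have := x_le t ne
    have := le_x t m
    unfold gx
    constructor <;> push_cast <;> linarith
  · rw [z, ln_top a (by omega) a (by omega), if_pos rfl]
    have := t.h_lo (ι a)
    have := (t.h_hi (ι a)).trans hs_le
    unfold gh
    constructor <;> push_cast <;> linarith

end Pool.Agent.Lib.MP_f3b2fd_co.KD
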