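import Pool.Agent.Lib.MP_f3b2fd_co.KEP.B.D.Drv
import Pool.Agent.Lib.MP_f3b2fd_co.KEP.B.Main

/-! From a table of refuted complexes to part B. -/

set_option autoImplicit false

noncomputable section

namespace Pool.Agent.Lib.MP_f3b2fd_co.KD

open KEP KEP.En

/-- every entry of `G` is the head of a root state of `X`; the argument gives the positions. -/
def lnk (X : Tb Job) (G : Tb ℕ) : Tb ℕ → Bool :=
  Tb.rec (motive := fun _ => Tb ℕ → Bool)
    (fun hd I => fc false (I.get 0) fun k => an (Nat.beq (X.get k).hd hd)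
      (an (Nat.beq (X.get k).lo 0) (Nat.beq (X.get k).hx 0)))
    (fun _ _ a b I => Tb.rec (motive := fun _ => Bool) (fun _ => false)
      (fun l r _ _ => an (a l) (b r)) I) G

theorem lnk_sound {X : Tb Job} (hX : X.All RefJ) (G : Tb ℕ) :
    ∀ I, lnk X G I = true → G.All fun hd => RefH hd 0 top := by
  induction G with
  | lf hd =>
    intro I e _
    replace e : an (Nat.beq (X.get (I.get 0)).hd hd)
      (an (Nat.beq (X.get (I.get 0)).lo 0) (Nat.beq (X.get (I.get 0)).hx 0)) = true := e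
    obtain ⟨e1, e2⟩ := (an_iff _ _).1 e
    obtain ⟨e2, e3⟩ := (an_iff _ _).1 e2
    have := hX (I.get 0)
    rw [RefJ, Nat.eq_of_beq_eq_true e1, Nat.eq_of_beq_eq_true e2, Nat.eq_of_beq_eq_true e3] at this
    exact (Nat.zero_xor top) ▸ this
  | nd l r il ir =>
    intro I e
    cases I with
    | lf _ => exact Bool.noConfusion e
    | nd a b => exact (il a ((an_iff _ _).1 e).1).nd (ir b ((an_iff _ _).1 e).2)

variable {V : Type} [Fintype V] [DecidableEq V]

/-- the complex with head `hd` sits in `T` or in its mirror image. -/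
def Hit (T : Finset (V × V × V)) (hd : ℕ) : Prop :=
  Nat.land hd 15 = Fintype.card V ∧ bits hd 4 15 = 15 ∧ bits hd 8 31 ≤ 16 ∧
    Ok (bits hd 8 31) (dL hd) ∧
    ∃ ι, Emb T (bits hd 8 31) (dL hd) ι ∨ Emb (mirT T) (bits hd 8 31) (dL hd) ι

theorem deg_le_card {T : Finset (V × V × V)} (h : IsCx T) (v : V) : deg T v ≤ Fintype.card V := by
  refine Finset.card_le_card_of_injOn (fun t => t.2.1) (fun _ _ => by simp) ?_
  rintro ⟨a, b, c⟩ m ⟨a', b', c'⟩ m' e
  simp only [Finset.coe_filter, Set.mem_ofPred_eq] at m m' e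
  obtain ⟨m, rfl⟩ := m
  obtain ⟨m', rfl⟩ := m'
  subst e
  rw [h.uniq _ _ _ _ m m']

theorem Hit.false {hd : ℕ} (t : Tri hs V) (h : Hit t.T hd) (r : RefH hd 0 top)
    (h15 : Fintype.card V ≤ 15)
    (s : ∑ v, (1 - KN.ff (t.h v)) < Fintype.card V - 12 + 1 / 1024) : False := by
  obtain ⟨h1, h2, h3, h4, ι, e | e⟩ := h
  · exact r h3 h4 V t ι ⟨h1.symm, h1 ▸ s, fun v => ((deg_le_card t.isCx v).trans h15).trans h2.ge⟩ e
      (box_top t ι h3)
  · exact r h3 h4 V t.mirror ι
      ⟨h1.symm, h1 ▸ s, fun v => ((deg_le_card t.mirror.isCx v).trans h15).trans h2.ge⟩ e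
      (box_top t.mirror ι h3)

/-- at most fifteen points -/
def FifS : Prop := ∀ (V : Type) [Fintype V] [DecidableEq V] (t : Tri hs V),
  ∑ v, (1 - KN.ff (t.h v)) < Fintype.card V - 12 + 1 / 1024 → Fintype.card V ≤ 15

/-- the table covers all triangulations with 13, 14 or 15 vertices -/
def CovS (G : Tb ℕ) : Prop := ∀ (V : Type) [Fintype V] [DecidableEq V] (T : Finset (V × V × V)),
  IsCx T → 13 ≤ Fintype.card V → Fintype.card V ≤ 15 → ∃ k, Hit T (G.get k)

theorem stB_of {G : Tb ℕ} (f : FifS) (c : CovS G) (r : G.All fun hd => RefH hd 0 top) :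
    StB KN.ff hs (1 / 1024) := by
  refine stB_of_numB one_le_hs (by rw [hs_sq]; norm_num) KN.ff_nonneg fun V _ _ t h13 => ?_
  by_contra k
  have s : ∑ v, (1 - KN.ff (t.h v)) < Fintype.card V - 12 + 1 / 1024 := by
    rw [Finset.sum_sub_distrib, Finset.sum_const, Finset.card_univ, nsmul_eq_mul, mul_one]
    linarith [not_le.1 k]
  obtain ⟨i, h⟩ := c V t.T t.isCx h13 (f V t s)
  exact h.false t (r i) (f V t s) s

end Pool.Agent.Lib.MP_f3b2fd_co.KD
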