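import Pool.Agent.Lib.MP_f3b2fd_co.KEP.B.Mirror
import Pool.Agent.Lib.MP_f3b2fd_co.KEP.N.Data

/-! Boxes for cosines and heights, and refuted states. -/

set_option autoImplicit false

namespace Pool.Agent.Lib.MP_f3b2fd_co.KD

open KEP KEP.En

/-- the lane `16 * a + b` of width 8. -/
def ln (X a b : ℕ) : ℕ :=
  Nat.land (Nat.shiftRight X (Nat.shiftLeft (Nat.add (Nat.shiftLeft a 4) b) 3)) 255

noncomputable section

/-- the end of the support of the weight. -/
def hs : ℝ := √425 / 16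

/-- the grid of cosines. -/
def gx (i : ℕ) : ℝ := i / 32 - 1 / 4

/-- the grid of heights. -/
def gh (j : ℕ) : ℝ := 1 + j / 128

end

variable {V : Type} [Fintype V] [DecidableEq V]

/-- `LO` and `HI` hold the lower and upper grid indices: lane `a, b` for the cosine of an edge,
lane `a, a` for the height. -/
structure Box (t : Tri hs V) (ι : ℕ → V) (n LO HI : ℕ) : Prop where
  x : ∀ a < n, ∀ b < n, (∃ z, (ι a, ι b, z) ∈ t.T) →
    gx (ln LO a b) ≤ t.x (ι a) (ι b) ∧ t.x (ι a) (ι b) ≤ gx (ln HI a b)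
  h : ∀ a < n, gh (ln LO a a) ≤ t.h (ι a) ∧ t.h (ι a) ≤ gh (ln HI a a)

/-- A counterexample with `N` points and degrees at most `cap`. -/
structure Bad (N cap : ℕ) (t : Tri hs V) : Prop where
  card : Fintype.card V = N
  sum : ∑ v, (1 - KN.ff (t.h v)) < N - 12 + 1 / 1024
  deg : ∀ v, deg t.T v ≤ cap

/-- No counterexample contains the complex `L` with data in the box. -/
def Ref (N cap n : ℕ) (L : List Tr) (LO HI : ℕ) : Prop :=
  n ≤ 16 → Ok n L → ∀ (V : Type) [Fintype V] [DecidableEq V] (t : Tri hs V) (ι : ℕ → V),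
    Bad N cap t → Emb t.T n L ι → Box t ι n LO HI → False

/-- `lf N n L LO HI c` is a sound test. -/
def LeafS (lf : ℕ → ℕ → List Tr → ℕ → ℕ → ℕ → Bool) : Prop :=
  ∀ N cap n L LO HI c, 13 ≤ N → N ≤ 15 → lf N n L LO HI c = true → Ref N cap n L LO HI

end Pool.Agent.Lib.MP_f3b2fd_co.KD
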