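import Pool.Agent.Lib.MP_f3b2fd_co.KEP.B.D.Drv
import Pool.Agent.Lib.MP_f3b2fd_co.KEP.B.L.Y

/-! The upper bounds of the heights are lowered with the bound for the sum of the deficits. -/

set_option autoImplicit false

namespace Pool.Agent.Lib.MP_f3b2fd_co.KD

open KEP KEP.En KL

noncomputable section

/-- the sum of the table values at the lower ends. -/
def sY (yt LO n : ℕ) : ℕ := Nat.rec 0 (fun v r => Nat.add r (yv yt (ln LO v v))) n

/-- a candidate for the first index with table value above `R`. -/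
def tj (R : ℕ) : ℕ :=
  Nat.succ (mx (mx (Nat.div R 674209) (Nat.div (Nat.sub R 1394463) 526251))
    (mx (Nat.div (Nat.sub R 3807737) 385742) (Nat.div (Nat.sub R 7912340) 224281)))

def t1 (yt B LO HI v : ℕ) : ℕ :=
  fN (Nat.add B (yv yt (ln LO v v))) fun R => fN (tj R) fun j =>
    cd (an (Nat.ble (Nat.succ j) (ln HI v v))
      (an (Nat.ble j 36) (Nat.ble (Nat.succ R) (yv yt j)))) (st HI v v j) HI

def tight (yt B LO HI n : ℕ) : ℕ := Nat.rec HI (fun v H => fN H fun H => t1 yt B LO H v) n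

/-- the leaf test on the smaller box. -/
def lfT (yt : ℕ) (lf : ℕ → ℕ → List Tr → ℕ → ℕ → ℕ → Bool) (N n : ℕ) (L : List Tr)
    (LO HI c : ℕ) : Bool :=
  fB (sY yt LO n) fun S => Bool.rec
    (fB (tight yt (Nat.sub (yN N) S) LO HI n) fun H => lf N n L LO H c) true
    (Nat.ble (Nat.succ (yN N)) S)

end

namespace Tight

theorem low {yt : ℕ} (hy : YS yt) {i : ℕ} {h : ℝ} (h0 : gh i ≤ h) (h1 : h ≤ hs) :
    (yv yt i : ℝ) ≤ 2 ^ 24 * (1 - KN.ff h) := by
  have k : hs < 1 + 37 / 128 := by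
    rw [hs, div_lt_iff₀ (by norm_num), Real.sqrt_lt' (by norm_num)]; norm_num
  unfold gh at h0
  have hi : (i : ℝ) < 37 := by linarith
  have hi' : i ≤ 37 := by exact_mod_cast hi.le
  have p : (0 : ℝ) < 37 - i := by linarith
  refine (hy i 37 ((128 * (h - 1) - i) / (37 - i)) h hi' le_rfl
    (div_nonneg (by linarith) p.le) ((div_le_one p).2 (by linarith)) ?_ h1).2
  push_cast
  field_simp
  ring

theorem sY_eq (yt LO n : ℕ) : sY yt LO n = ∑ v ∈ Finset.range n, yv yt (ln LO v v) := by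
  induction n with
  | zero => rfl
  | succ n ih => rw [Finset.sum_range_succ, ← ih]; rfl

variable {V : Type} [Fintype V] [DecidableEq V]

theorem sum_lt {N cap n : ℕ} {L : List Tr} {t : Tri hs V} {ι : ℕ → V} (hN : 13 ≤ N)
    (bad : Bad N cap t) (e : Emb t.T n L ι) :
    ∑ v ∈ Finset.range n, 2 ^ 24 * (1 - KN.ff (t.h (ι v))) < (yN N : ℝ) := by
  have a : ∑ v ∈ Finset.range n, (1 - KN.ff (t.h (ι v))) ≤ ∑ v, (1 - KN.ff (t.h v)) := by
    rw [← Finset.sum_image (s := Finset.range n) (g := ι) (f := fun v => 1 - KN.ff (t.h v))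
      (fun a ha b hb h => e.inj a (Finset.mem_range.1 ha) b (Finset.mem_range.1 hb) h)]
    exact Finset.sum_le_sum_of_subset_of_nonneg (Finset.subset_univ _)
      fun v _ _ => y_nonneg (t.h_lo v) (t.h_hi v)
  have b := bad.sum
  have c : (yN N : ℝ) = 2 ^ 24 * (N - 12 + 1 / 1024) := by
    show ((16777216 * (N - 12) + 16384 : ℕ) : ℝ) = _
    rw [Nat.cast_add, Nat.cast_mul, Nat.cast_sub (by omega)]
    push_cast
    ring
  rw [← Finset.mul_sum, c]
  linarith

theorem step {yt N cap n LO HI H v : ℕ} {L : List Tr} {t : Tri hs V} {ι : ℕ → V} (hy : YS yt)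
    (hN : 13 ≤ N) (hn : n ≤ 16) (bad : Bad N cap t) (e : Emb t.T n L ι) (B0 : Box t ι n LO HI)
    (hS : sY yt LO n ≤ yN N) (hv : v < n) (B : Box t ι n LO H) :
    Box t ι n LO (t1 yt (Nat.sub (yN N) (sY yt LO n)) LO H v) := by
  generalize hR : Nat.add (Nat.sub (yN N) (sY yt LO n)) (yv yt (ln LO v v)) = R
  generalize hj : tj R = j
  have e1 : t1 yt (Nat.sub (yN N) (sY yt LO n)) LO H v =
      cd (an (Nat.ble (Nat.succ j) (ln H v v))
        (an (Nat.ble j 36) (Nat.ble (Nat.succ R) (yv yt j)))) (st H v v j) H := by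
    subst hj hR; rfl
  rw [e1]
  cases hc : an (Nat.ble (Nat.succ j) (ln H v v))
      (an (Nat.ble j 36) (Nat.ble (Nat.succ R) (yv yt j))) with
  | false => exact B
  | true =>
    obtain ⟨-, c2⟩ := (an_iff _ _).1 hc
    obtain ⟨c2, c3⟩ := (an_iff _ _).1 c2
    have j36 : j ≤ 36 := Nat.le_of_ble_eq_true c2
    have r : R < yv yt j := Nat.le_of_ble_eq_true c3
    have key : t.h (ι v) ≤ gh j := by
      by_contra q
      have a := low hy (not_le.1 q).le (t.h_hi (ι v))
      have s := sum_lt hN bad e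
      have m : v ∈ Finset.range n := Finset.mem_range.2 hv
      rw [← Finset.add_sum_erase _ _ m] at s
      have b : ((∑ u ∈ (Finset.range n).erase v, yv yt (ln LO u u) : ℕ) : ℝ) ≤
          ∑ u ∈ (Finset.range n).erase v, 2 ^ 24 * (1 - KN.ff (t.h (ι u))) := by
        rw [Nat.cast_sum]
        exact Finset.sum_le_sum fun u hu => low hy
          (B0.h u (Finset.mem_range.1 (Finset.mem_of_mem_erase hu))).1 (t.h_hi _)
      have d := Finset.add_sum_erase (Finset.range n) (fun u => yv yt (ln LO u u)) m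
      rw [← sY_eq] at d
      have f : yN N < yv yt j + ∑ u ∈ (Finset.range n).erase v, yv yt (ln LO u u) := by
        have : R = yN N - sY yt LO n + yv yt (ln LO v v) := hR.symm
        omega
      have f' : (yN N : ℝ) < yv yt j +
          ((∑ u ∈ (Finset.range n).erase v, yv yt (ln LO u u) : ℕ) : ℝ) := by exact_mod_cast f
      linarith
    show Box t ι n LO (st H v v j)
    refine ⟨fun a ha b hb m => ?_, fun a ha => ?_⟩
    · have ne : a ≠ b := by
        obtain ⟨z, hz⟩ := m
        rintro rfl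
        exact (t.ne _ _ _ hz).1 rfl
      rw [ln_st _ (by omega) (by omega) (by omega), if_neg (by omega)]
      exact B.x a ha b hb m
    · rw [ln_st _ (by omega) (by omega) (by omega)]
      split_ifs with w
      · obtain ⟨rfl, -⟩ := w
        exact ⟨(B.h a ha).1, key⟩
      · exact B.h a ha

theorem all {yt N cap n LO HI : ℕ} {L : List Tr} {t : Tri hs V} {ι : ℕ → V} (hy : YS yt)
    (hN : 13 ≤ N) (hn : n ≤ 16) (bad : Bad N cap t) (e : Emb t.T n L ι) (B0 : Box t ι n LO HI)
    (hS : sY yt LO n ≤ yN N) (k : ℕ) (hk : k ≤ n) :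
    Box t ι n LO (tight yt (Nat.sub (yN N) (sY yt LO n)) LO HI k) := by
  induction k with
  | zero => exact B0
  | succ k ih => exact step hy hN hn bad e B0 hS hk (ih (Nat.le_of_succ_le hk))

end Tight

theorem leafT {yt : ℕ} {lf : ℕ → ℕ → List Tr → ℕ → ℕ → ℕ → Bool} (hy : YS yt) (h : LeafS lf) :
    LeafS (lfT yt lf) := by
  intro N cap n L LO HI c h1 h2 q hn o V _ _ t ι bad e B
  replace q : Bool.rec (lf N n L LO (tight yt (Nat.sub (yN N) (sY yt LO n)) LO HI n) c) true
    (Nat.ble (Nat.succ (yN N)) (sY yt LO n)) = true := q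
  have s : sY yt LO n ≤ yN N := by
    have a := Tight.sum_lt h1 bad e
    have b : ((sY yt LO n : ℕ) : ℝ) ≤
        ∑ u ∈ Finset.range n, 2 ^ 24 * (1 - KN.ff (t.h (ι u))) := by
      rw [Tight.sY_eq, Nat.cast_sum]
      exact Finset.sum_le_sum fun u hu => Tight.low hy (B.h u (Finset.mem_range.1 hu)).1 (t.h_hi _)
    exact_mod_cast (b.trans_lt a).le
  have z : Nat.ble (Nat.succ (yN N)) (sY yt LO n) = false := by
    cases w : Nat.ble (Nat.succ (yN N)) (sY yt LO n) with
    | false => rfl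
    | true => exact absurd (Nat.le_of_ble_eq_true w) (by omega)
  rw [z] at q
  exact h N cap n L LO _ c h1 h2 q hn o V t ι bad e (Tight.all hy h1 hn bad e B s n le_rfl)

end Pool.Agent.Lib.MP_f3b2fd_co.KD
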