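import Pool.Agent.Lib.MP_f3b2fd_co.KEP.B.H.Tb
import Pool.Agent.Lib.MP_f3b2fd_co.KEP.B.D.Tight

/-! The leaf test of the branching trees. -/

set_option autoImplicit false

namespace Pool.Agent.Lib.MP_f3b2fd_co.KD

/-- the leaf test with all tables. -/
noncomputable def lfB (N n : ℕ) (L : List KEP.En.Tr) (LO HI c : ℕ) : Bool :=
  lfT KL.yt (KL.lf KEP.Hu.tb KL.yt 15) N n L LO HI c

end Pool.Agent.Lib.MP_f3b2fd_co.KD
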