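import Pool.Agent.Lib.MP_f3b2fd_co.KEP.B.D.Lf
import Pool.Agent.Lib.MP_f3b2fd_co.KEP.B.D.Glue
import Pool.Agent.Lib.MP_f3b2fd_co.KEP.B.H.All
import Pool.Agent.Lib.MP_f3b2fd_co.KEP.B.L.Am
import Pool.Agent.Lib.MP_f3b2fd_co.KEP.B.L.Leaf
import Pool.Agent.Lib.MP_f3b2fd_co.KEP.B.L.Sep
import Pool.Agent.Lib.MP_f3b2fd_co.KEP.B.L.Tt
import Pool.Agent.Lib.MP_f3b2fd_co.KEP.B.Tau.Main

/-! The leaf test is sound. -/

set_option autoImplicit false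

namespace Pool.Agent.Lib.MP_f3b2fd_co.KD

theorem tauB : KT.TauS hs := KT.tauS hs_sq.ge (hs_le.trans (by norm_num))

theorem leafB : LeafS lfB :=
  leafT KL.yS (KL.glue (KL.leafS KL.ttS KL.sepS) (KEP.Hu.hullS hs_sq) tauB KL.yS KL.amS)

end Pool.Agent.Lib.MP_f3b2fd_co.KD
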