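import Pool.Agent.Lib.MP_f3b2fd_co.KEP.B.D.LfS
import Pool.Agent.Lib.MP_f3b2fd_co.KEP.B.Cv.Cov
import Pool.Agent.Lib.MP_f3b2fd_co.KEP.B.K.Top

/-! All listed complexes are refuted. -/

set_option autoImplicit false

namespace Pool.Agent.Lib.MP_f3b2fd_co.KD

theorem allRef : GA.All fun hd => RefH hd 0 top := roots leafB

end Pool.Agent.Lib.MP_f3b2fd_co.KD
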